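import Mathlib

set_option autoImplicit false

namespace Pool.Agent.H.MP_6bb0fd_an

open Polynomial Finset

/-- Laguerre inequality -/
theorem lag {f : ℝ[X]} (h : f.Splits) (x : ℝ) :
    f.eval x * (derivative (derivative f)).eval x ≤ (derivative f).eval x ^ 2 := by
  induction h using Submonoid.closure_induction with
  | mem g hg => rcases hg with ⟨a, rfl⟩ | ⟨a, rfl⟩ <;> simp
  | one => simp
  | mul f g _ _ i j =>
    simp only [derivative_mul, derivative_add, eval_mul, eval_add]
    nlinarith [mul_le_mul_of_nonneg_left i (sq_nonneg (g.eval x)),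
      mul_le_mul_of_nonneg_left j (sq_nonneg (f.eval x))]

theorem quad {a b c : ℝ} (h : 4 * a * c ≤ b ^ 2) : (C a * X ^ 2 + C b * X + C c).Splits := by
  by_cases ha : a = 0
  · refine Splits.of_natDegree_le_one ?_
    rw [ha]; simp only [map_zero, zero_mul, zero_add]; compute_degree
  · obtain ⟨x, hx⟩ := exists_quadratic_eq_zero ha (b := b) (c := c)
      ⟨√(discrim a b c), (Real.mul_self_sqrt (by rw [discrim]; linarith)).symm⟩
    exact Splits.of_natDegree_eq_two (x := x) (natDegree_quadratic ha) (by simp; linarith)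

/-- Taylor coefficients -/
noncomputable def e (k : ℕ) : ℝ[X] := C (1 / k.factorial : ℝ) * (-X) ^ k

theorem tay (g : ℝ[X]) {N : ℕ} (h : g.natDegree < N) :
    ∑ k ∈ range N, e k * derivative^[k] g = C (g.eval 0) := by
  refine Polynomial.funext fun x => ?_
  have := eval_eq_sum_range' (p := taylor x g) (n := N) (by rwa [natDegree_taylor]) (-x)
  rw [taylor_eval, neg_add_cancel] at this
  rw [eval_C, this, eval_finsetSum]
  refine sum_congr rfl fun k _ => ?_
  have := congrFun (factorial_smul_hasseDeriv (R := ℝ) k) g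
  rw [taylor_coeff, ← this]
  simp [e]
  field_simp

/-- the operator -/
noncomputable def T : ℝ[X] →ₗ[ℝ] ℝ[X] :=
  (lcoeff ℝ 0).smulRight 1 + (lcoeff ℝ 1).smulRight (C 4 * X) +
    (lcoeff ℝ 2).smulRight (C 7 * X ^ 2 - C 6)

/-- its coefficients -/
noncomputable def Q : ℕ → ℝ[X]
  | 0 => 1
  | 1 => C 3 * X
  | k + 2 => e (k + 2) + C 4 * X * e (k + 1) + C (1 / 2) * (C 7 * X ^ 2 - C 6) * e k

theorem T_apply (f : ℝ[X]) : T f = C (7 * f.coeff 2) * X ^ 2 + C (4 * f.coeff 1) * X +
    C (f.coeff 0 - 6 * f.coeff 2) := by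
  simp only [T, LinearMap.add_apply, LinearMap.smulRight_apply, lcoeff_apply, smul_eq_C_mul,
    map_mul, map_sub]
  ring

theorem c1 (f : ℝ[X]) : (derivative f).eval 0 = f.coeff 1 := by
  simp [← coeff_zero_eq_eval_zero, coeff_derivative]

theorem c2 (f : ℝ[X]) : (derivative (derivative f)).eval 0 = 2 * f.coeff 2 := by
  simp [← coeff_zero_eq_eval_zero, coeff_derivative]; ring

theorem rep (f : ℝ[X]) : T f = ∑ᶠ k, Q k * derivative^[k] f := by
  rw [finsum_eq_sum_of_support_subset (s := range (f.natDegree + 1 + 2)) _ (fun k hk => by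
    by_contra c
    simp only [coe_range, Set.mem_Iio, not_lt] at c
    exact hk (by simp [iterate_derivative_eq_zero (show f.natDegree < k by omega)]))]
  have d1 := natDegree_derivative_le f
  have d2 := natDegree_derivative_le (derivative f)
  have h0 := tay f (N := f.natDegree + 1 + 2) (by omega)
  have h1 := tay (derivative f) (N := f.natDegree + 1 + 1) (by omega)
  have h2 := tay (derivative (derivative f)) (N := f.natDegree + 1) (by omega)
  rw [sum_range_succ', sum_range_succ'] at h0
  rw [sum_range_succ'] at h1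
  rw [c1] at h1
  rw [c2] at h2
  rw [← coeff_zero_eq_eval_zero] at h0
  rw [sum_range_succ', sum_range_succ', T_apply]
  simp only [Q, add_mul, sum_add_distrib, mul_assoc, ← mul_sum, zero_add]
  simp only [← Function.iterate_succ_apply, Nat.succ_eq_add_one, zero_add] at h0 h1 h2
  simp only [map_mul, map_sub] at *
  rw [← h0, ← h1, h2]
  have : (C (1 / 2 : ℝ) : ℝ[X]) * C 2 = 1 := by rw [← C_mul]; norm_num
  simp only [e, Nat.factorial, map_ofNat] at *
  simp [-one_div]
  linear_combination (-(7 * X ^ 2 - 6) * C (f.coeff 2)) * this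

theorem Q_inf : {k | Q k ≠ 0}.Infinite := by
  refine Set.infinite_of_injective_forall_mem (f := fun k => k + 2) (add_left_injective 2)
    fun k h => ?_
  have : Q (k + 2) = (-X) ^ k * ((C (1 / (k + 2).factorial : ℝ) - C 4 *
      C (1 / (k + 1).factorial : ℝ)) * X ^ 2 + C (1 / 2) * (C 7 * X ^ 2 - C 6) *
        C (1 / k.factorial : ℝ)) := by
    simp only [Q, e]; ring
  rw [this] at h
  rcases mul_eq_zero.1 h with h | h
  · simp at h
  · have := congrArg (eval 0) h
    simp [Nat.factorial_ne_zero] at this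

theorem pres {f : ℝ[X]} (h : f.Splits) : (T f).Splits := by
  rw [T_apply]
  have := lag h 0
  rw [c2, c1, ← coeff_zero_eq_eval_zero] at this
  exact quad (by nlinarith [sq_nonneg (f.coeff 1), sq_nonneg (f.coeff 2)])

theorem Q2 : Q 2 = C (-3) := by
  refine Polynomial.funext fun x => ?_
  simp [Q, e]; ring

theorem nonmono : Q 1 ≠ 0 ∧ Q 2 ≠ 0 ∧ (Q 2).degree < (Q 1).degree := by
  have : (Q 1).degree = 1 := degree_C_mul_X (by norm_num)
  refine ⟨fun h => by simp [h] at this, by simp [Q2], ?_⟩
  rw [this, Q2, degree_C (by norm_num)]; norm_num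

/-- the basis -/
noncomputable def B (k : ℕ) : ℝ[X] := if k = 2 then X ^ 2 - C 1 else X ^ k

theorem B_deg (k : ℕ) : (B k).degree = k := by
  unfold B; split_ifs with h
  · rw [h]; exact degree_X_pow_sub_C (by norm_num) _
  · simp

theorem T_B (k : ℕ) : T (B k) = (if k < 3 then 3 * k + 1 else 0 : ℝ) • B k := by
  rw [T_apply]
  refine Polynomial.funext fun x => ?_
  rcases k with _ | _ | _ | k
  · simp [B, coeff_one]
  · simp [B, coeff_X]; norm_num
  · simp [B, coeff_one]; ring
  · rw [if_neg (by omega)]; simp [B, coeff_X_pow]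

theorem rk : 3 ≤ Module.rank ℝ (LinearMap.range T) := by
  have : LinearIndependent ℝ (fun i : Fin 3 => T.rangeRestrict (B i)) := by
    refine LinearIndependent.of_comp (LinearMap.range T).subtype ?_
    rw [Fintype.linearIndependent_iff]
    intro g hg
    have h0 := congrArg (eval 0) hg
    have h1 := congrArg (eval 1) hg
    have h2 := congrArg (eval (-1)) hg
    simp [Fin.sum_univ_three, T_B] at h0 h1 h2
    simp [B] at h0 h1 h2
    intro i
    fin_cases i <;> simp <;> linarith
  simpa using this.cardinal_lift_le_rank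

theorem B_ode (k : ℕ) : C (k * (2 - k) : ℝ) * B k + (-X * derivative (B k) +
    X ^ 2 * derivative (derivative (B k))) = 0 := by
  refine Polynomial.funext fun x => ?_
  rcases k with _ | _ | _ | k <;> simp [B] <;> ring

end Pool.Agent.H.MP_6bb0fd_an
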